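import Pool.Agent.Helper61.Cal.Neg

/-!
# `□_β` refutes the unary Chang principle at a singular cardinal of cofinality `ω`
-/

set_option autoImplicit false

namespace Pool.Agent.Helper61.Cal

open Set Cardinal Order

/-- `γ` is a limit point of `S`. -/
def IsLimPt {W : Type} [LinearOrder W] (S : Set W) (γ : W) : Prop :=
  IsSuccLimit γ ∧ ∀ ξ < γ, ∃ ζ ∈ S, ξ < ζ ∧ ζ < γ

/-- Jensen's square principle `□_β`, on the well-order of type `β⁺`. -/
def Square (β : Cardinal.{0}) : Prop :=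
  ∃ C : (succ β).ord.ToType → Set (succ β).ord.ToType, ∀ α, IsSuccLimit α →
    C α ⊆ Iio α ∧ (∀ ξ < α, ∃ ζ ∈ C α, ξ < ζ) ∧
    (∀ γ < α, IsLimPt (C α) γ → γ ∈ C α ∧ C γ = C α ∩ Iio γ) ∧
    Ordinal.type (fun x y : C α => x < y) ≤ β.ord

/-- a monotone cofinal sequence -/
theorem exists_cofinal_seq {β : Cardinal.{0}} (hcof : β.ord.cof = ℵ₀) :
    ∃ G : ℕ → β.ord.ToType, Monotone G ∧ ∀ x, ∃ n, x ≤ G n := by
  obtain ⟨s, hs, hsc⟩ := Order.exists_cof_eq (α := β.ord.ToType)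
  rw [Ordinal.cof_toType, hcof] at hsc
  have hsc' : s.Countable := by
    rw [← le_aleph0_iff_set_countable, hsc]
  have hne : s.Nonempty := by
    rw [Set.nonempty_iff_ne_empty]
    rintro rfl
    simp at hsc
    exact aleph0_ne_zero hsc.symm
  obtain ⟨g, hg⟩ := hsc'.exists_eq_range hne
  refine ⟨fun n => (Finset.range (n + 1)).sup' ⟨0, by simp⟩ g, ?_, ?_⟩
  · intro n m hnm
    exact Finset.sup'_mono g (by
      intro i hi
      rw [Finset.mem_range] at hi ⊢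
      omega) _
  · intro x
    obtain ⟨z, hz, hxz⟩ := hs x
    rw [hg] at hz
    obtain ⟨n, rfl⟩ := hz
    exact ⟨n, hxz.trans (Finset.le_sup' g (by simp))⟩

/-- a monotone cofinal sequence of regular cardinals -/
theorem exists_regular_seq {β : Cardinal.{0}} (hβ : ℵ₀ < β) (hcof : β.ord.cof = ℵ₀)
    (G : ℕ → β.ord.ToType) (hG : Monotone G) (hG' : ∀ x, ∃ n, x ≤ G n) :
    ∃ b : ℕ → Cardinal.{0}, (∀ n, (b n).IsRegular) ∧ (∀ n, b n ≤ β) ∧ Monotone b ∧
      (∀ n, #(Iic (G n)) < b n) ∧ ∀ κ < β, ∃ N, ∀ n, N ≤ n → κ < b n := by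
  refine ⟨fun n => succ (max ℵ₀ #(Iic (G n))), fun n => isRegular_succ (le_max_left _ _), ?_, ?_,
    ?_, ?_⟩
  · intro n
    exact succ_le_of_lt (max_lt hβ (mk_Iic_lt hβ.le _))
  · intro n m hnm
    apply succ_le_succ
    exact max_le_max le_rfl (mk_le_mk_of_subset (Iic_subset_Iic.2 (hG hnm)))
  · intro n
    exact lt_succ_of_le (le_max_right _ _)
  · intro κ hκ
    -- an element of the well-order with κ predecessors
    have h1 : κ.ord < β.ord := by simpa using hκ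
    let x : β.ord.ToType := Ordinal.ToType.mk ⟨κ.ord, h1⟩
    have hx : κ ≤ #(Iic x) := by
      have h2 : #(Iio x) = κ := by
        have e1 : Iio x ≃ Iio (⟨κ.ord, h1⟩ : Iio β.ord) :=
          { toFun := fun y => ⟨Ordinal.ToType.mk.symm y.1, by
              have := y.2
              rw [mem_Iio] at this ⊢
              rw [← OrderIso.lt_iff_lt Ordinal.ToType.mk]
              simpa [x] using this⟩
            invFun := fun y => ⟨Ordinal.ToType.mk y.1, by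
              have := y.2
              rw [mem_Iio] at this ⊢
              simpa [x] using this⟩
            left_inv := fun y => by simp
            right_inv := fun y => by simp }
        have e2 : Iio (⟨κ.ord, h1⟩ : Iio β.ord) ≃ Iio κ.ord :=
          { toFun := fun y => ⟨y.1.1, y.2⟩
            invFun := fun y => ⟨⟨y.1, lt_trans y.2 h1⟩, y.2⟩
            left_inv := fun y => rfl
            right_inv := fun y => rfl }
        have h3 := (Cardinal.lift_mk_eq'.2 ⟨e1.trans e2⟩)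
        rw [Cardinal.mk_Iio_ordinal] at h3
        simp only [card_ord] at h3
        rw [Cardinal.lift_id'.{0, 1}] at h3
        exact Cardinal.lift_injective.{1, 0} h3
      rw [← h2]
      exact mk_le_mk_of_subset Iio_subset_Iic_self
    obtain ⟨N, hN⟩ := hG' x
    refine ⟨N, fun n hn => ?_⟩
    refine lt_of_le_of_lt (hx.trans ?_) (lt_succ_of_le (le_max_right ℵ₀ _))
    exact mk_le_mk_of_subset (Iic_subset_Iic.2 (hN.trans (hG hn)))

/-- The rank of a well-founded relation with fewer than `κ` predecessors, `κ` regular. -/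
theorem rank_lt_of_few {W : Type} (r : W → W → Prop) [IsWellFounded W r] {κ : Cardinal.{0}}
    (hκ : κ.IsRegular) (h : ∀ a, #{b // r b a} < κ) (a : W) :
    IsWellFounded.rank r a < κ.ord := by
  induction a using IsWellFounded.induction r with
  | _ a ih =>
    rw [IsWellFounded.rank_eq]
    apply Ordinal.iSup_lt_of_lt_cof
    · rw [hκ.cof_ord]
      exact h a
    · intro b
      exact (isSuccLimit_ord hκ.aleph0_le).succ_lt (ih b.1 b.2)

theorem square_refutes {β : Cardinal.{0}} (hβ : ℵ₀ < β) (hcof : β.ord.cof = ℵ₀)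
    (hsq : Square β) :
    ∃ F : (succ β).ord.ToType → ℕ → β.ord.ToType,
      ∀ A : Set (succ β).ord.ToType, #A = aleph 1 → ¬ (⋃ ξ ∈ A, range (F ξ)).Countable := by
  classical
  obtain ⟨C, hC⟩ := hsq
  obtain ⟨G, hG, hG'⟩ := exists_cofinal_seq hcof
  obtain ⟨b, hbreg, hble, hbmono, hGb, hblim⟩ := exists_regular_seq hβ hcof G hG hG'
  have hW : #((succ β).ord.ToType) = succ β := by simp
  have hBc : #(β.ord.ToType) = β := by simp
  -- injections of initial segments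
  have hinj : ∀ ξ : (succ β).ord.ToType, Nonempty (Iio ξ ↪ β.ord.ToType) := by
    intro ξ
    have h1 : #(Iio ξ) < succ β := by simpa using mk_Iio_lt ξ
    have h2 : #(Iio ξ) ≤ #(β.ord.ToType) := by rw [hBc]; exact le_of_lt_succ h1
    exact h2
  let e : ∀ ξ : (succ β).ord.ToType, Iio ξ ↪ β.ord.ToType := fun ξ => (hinj ξ).some
  -- the relations
  let r : ℕ → (succ β).ord.ToType → (succ β).ord.ToType → Prop := fun n ζ ξ =>
    ∃ h : ζ < ξ, e ξ ⟨ζ, h⟩ ≤ G n ∨ (ζ ∈ C ξ ∧ #(C ξ) < b n)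
  have hwf : ∀ n, IsWellFounded _ (r n) := fun n =>
    ⟨Subrelation.wf (r := (· < ·)) (fun {x y} h => h.1) wellFounded_lt⟩
  have hfew : ∀ n ξ, #{ζ // r n ζ ξ} < b n := by
    intro n ξ
    have h1 : {ζ | r n ζ ξ} ⊆ (Subtype.val '' ((e ξ) ⁻¹' (Iic (G n)))) ∪
        {ζ | ζ ∈ C ξ ∧ #(C ξ) < b n} := by
      rintro ζ ⟨h, h2 | h2⟩
      · exact Or.inl ⟨⟨ζ, h⟩, h2, rfl⟩
      · exact Or.inr h2
    have h2 : #{ζ // r n ζ ξ} ≤ _ := mk_le_mk_of_subset h1
    refine lt_of_le_of_lt (h2.trans (mk_union_le _ _)) ?_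
    apply add_lt_of_lt (hbreg n).aleph0_le
    · refine lt_of_le_of_lt mk_image_le ?_
      exact lt_of_le_of_lt (mk_preimage_of_injective _ _ (e ξ).injective) (hGb n)
    · by_cases h : #(C ξ) < b n
      · have : {ζ | ζ ∈ C ξ ∧ #(C ξ) < b n} = C ξ := by
          ext ζ
          simp [h]
        rw [this]
        exact h
      · have : {ζ | ζ ∈ C ξ ∧ #(C ξ) < b n} = ∅ := by
          ext ζ
          simp [h]
        rw [this]
        simpa using (hbreg n).pos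
  let f : (succ β).ord.ToType → ℕ → Ordinal.{0} := fun ξ n =>
    haveI := hwf n
    IsWellFounded.rank (r n) ξ
  have hflt : ∀ ξ n, f ξ n < β.ord := by
    intro ξ n
    haveI := hwf n
    exact lt_of_lt_of_le (rank_lt_of_few (r n) (hbreg n) (hfew n) ξ) (ord_mono (hble n))
  have hfr : ∀ n ζ ξ, r n ζ ξ → f ζ n < f ξ n := by
    intro n ζ ξ h
    haveI := hwf n
    exact IsWellFounded.rank_lt_of_rel h
  have hfev : ∀ ζ ξ, ζ < ξ → ∃ m, ∀ n, m ≤ n → f ζ n < f ξ n := by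
    intro ζ ξ h
    obtain ⟨m, hm⟩ := hG' (e ξ ⟨ζ, h⟩)
    exact ⟨m, fun n hn => hfr n ζ ξ ⟨h, Or.inl (hm.trans (hG hn))⟩⟩
  refine ⟨fun ξ n => Ordinal.ToType.mk ⟨f ξ n, hflt ξ n⟩, ?_⟩
  intro A hA hcount
  -- countably many values
  have hvals : (⋃ ξ ∈ A, range (f ξ)).Countable := by
    have : (⋃ ξ ∈ A, range (f ξ)) ⊆ (fun x : β.ord.ToType => (Ordinal.ToType.mk.symm x : Ordinal)) ''
        (⋃ ξ ∈ A, range (fun n => Ordinal.ToType.mk ⟨f ξ n, hflt ξ n⟩)) := by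
      intro v hv
      simp only [mem_iUnion, mem_range] at hv
      obtain ⟨ξ, hξ, n, rfl⟩ := hv
      refine ⟨Ordinal.ToType.mk ⟨f ξ n, hflt ξ n⟩, ?_, by simp⟩
      simp only [mem_iUnion, mem_range]
      exact ⟨ξ, hξ, n, rfl⟩
    exact (hcount.image _).mono this
  have hAunc : ¬ A.Countable := by
    rw [← le_aleph0_iff_set_countable, hA]
    exact not_le.2 aleph0_lt_aleph_one
  -- δ
  have hexδ : ∃ γ, ¬ (A ∩ Iio γ).Countable := by
    have hbd : ∃ γ : (succ β).ord.ToType, ∀ ξ ∈ A, ξ < γ := by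
      by_contra hun
      push Not at hun
      have hcofinal : IsCofinal A := fun γ => by
        obtain ⟨ξ, hξ, hγ⟩ := hun γ
        exact ⟨ξ, hξ, hγ⟩
      have h1 := Order.cof_le hcofinal
      rw [Ordinal.cof_toType, (isRegular_succ hβ.le).cof_ord, hA] at h1
      have h2 : aleph 1 ≤ β := by
        rw [← succ_aleph0]
        exact succ_le_of_lt hβ
      exact absurd (lt_succ_of_le h2) (not_lt.2 h1)
    obtain ⟨γ, hγ⟩ := hbd
    refine ⟨γ, ?_⟩
    have : A ∩ Iio γ = A := by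
      ext ξ
      constructor
      · exact fun h => h.1
      · exact fun h => ⟨h, hγ ξ h⟩
    rw [this]
    exact hAunc
  obtain ⟨δ, hδ, hδmin⟩ := wellFounded_lt.has_min {γ | ¬ (A ∩ Iio γ).Countable} hexδ
  have hbelow : ∀ γ < δ, (A ∩ Iio γ).Countable := by
    intro γ hγ
    by_contra h
    exact hδmin γ h hγ
  have hbelow' : ∀ γ < δ, (A ∩ Iic γ).Countable := by
    intro γ hγ
    refine ((hbelow γ hγ).union (countable_singleton γ)).mono ?_
    rintro ξ ⟨h1, h2⟩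
    rcases (show ξ ≤ γ from h2).lt_or_eq with h | h
    · exact Or.inl ⟨h1, h⟩
    · exact Or.inr h
  -- no countable cofinal set
  have hnocof : ∀ S : Set (succ β).ord.ToType, S.Countable → S ⊆ Iio δ →
      ∃ γ < δ, ∀ s ∈ S, s < γ := by
    intro S hS hSδ
    by_contra hcon
    push Not at hcon
    apply hδ
    have : A ∩ Iio δ ⊆ ⋃ s ∈ S, (A ∩ Iic s) := by
      rintro ξ ⟨h1, h2⟩
      obtain ⟨s, hs, hξs⟩ := hcon ξ h2
      simp only [mem_iUnion]
      exact ⟨s, hs, h1, hξs⟩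
    exact (hS.biUnion fun s hs => hbelow' s (hSδ hs)).mono this
  have hδlim : IsSuccLimit δ := by
    rw [isSuccLimit_iff]
    constructor
    · intro hmin
      apply hδ
      have : A ∩ Iio δ = ∅ := by
        ext ξ
        simp only [mem_inter_iff, mem_Iio, mem_empty_iff_false, iff_false, not_and, not_lt]
        intro _
        exact hmin.not_lt |> fun h => not_lt.1 h
      rw [this]
      exact countable_empty
    · intro γ hγ
      apply hδ
      refine (hbelow' γ hγ.lt).mono ?_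
      rintro ξ ⟨h1, h2⟩
      exact ⟨h1, hγ.le_of_lt h2⟩
  obtain ⟨hC1, hC2, hC3, hC4⟩ := hC δ hδlim
  -- size of C δ
  have hCcard : #(C δ) < β := by
    have hle : #(C δ) ≤ β := by
      have := Ordinal.card_le_card hC4
      simpa using this
    rcases hle.lt_or_eq with h | h
    · exact h
    · exfalso
      have htype : Ordinal.type (fun x y : C δ => x < y) = β.ord := by
        apply le_antisymm hC4
        calc β.ord = (#(C δ)).ord := (congrArg ord h).symm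
          _ ≤ _ := ord_le_type _
      have h1 : Ordinal.type (fun x y : C δ => x < y) =
          Ordinal.type (fun x y : β.ord.ToType => x < y) := by
        rw [htype]
        exact (Ordinal.type_toType _).symm
      obtain ⟨φ⟩ := Ordinal.type_eq.1 h1
      obtain ⟨γ, hγ, hγ'⟩ := hnocof (range (fun n => (φ.symm (G n)).1)) (countable_range _) (by
        rintro _ ⟨n, rfl⟩
        exact hC1 (φ.symm (G n)).2)
      obtain ⟨ζ, hζ, hζγ⟩ := hC2 γ hγ
      obtain ⟨n, hn⟩ := hG' (φ ⟨ζ, hζ⟩)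
      have h2 : (φ.symm (G n)).1 < ζ := (hγ' _ ⟨n, rfl⟩).trans hζγ
      have h3 : φ (φ.symm (G n)) < φ ⟨ζ, hζ⟩ := φ.map_rel_iff.2 (Subtype.mk_lt_mk.2 h2)
      rw [RelIso.apply_symm_apply] at h3
      exact absurd h3 (not_lt.2 hn)
  obtain ⟨N, hN⟩ := hblim _ hCcard
  -- limit points
  let D : Set (succ β).ord.ToType := {γ | γ < δ ∧ IsLimPt (C δ) γ}
  have hDunb : ∀ ξ < δ, ∃ γ ∈ D, ξ < γ := by
    intro ξ hξ
    -- build a sequence
    have hstep : ∀ ζ : Iio δ, ∃ ζ' : Iio δ, ζ'.1 ∈ C δ ∧ ζ.1 < ζ'.1 := by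
      rintro ⟨ζ, hζ⟩
      obtain ⟨ζ', h1, h2⟩ := hC2 ζ hζ
      exact ⟨⟨ζ', hC1 h1⟩, h1, h2⟩
    choose nx hnx1 hnx2 using hstep
    let z : ℕ → Iio δ := fun n => Nat.rec ⟨ξ, hξ⟩ (fun _ w => nx w) n
    have hz1 : ∀ n, z (n + 1) = nx (z n) := fun n => rfl
    obtain ⟨γ₀, hγ₀, hγ₀'⟩ := hnocof (range (fun n => (z n).1)) (countable_range _) (by
      rintro _ ⟨n, rfl⟩
      exact (z n).2)
    obtain ⟨γ, hγ, hγmin⟩ := wellFounded_lt.has_min
      {γ : (succ β).ord.ToType | ∀ n, (z n).1 < γ} ⟨γ₀, fun n => hγ₀' _ ⟨n, rfl⟩⟩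
    have hγδ : γ < δ := by
      refine lt_of_le_of_lt ?_ hγ₀
      by_contra h
      rw [not_le] at h
      exact hγmin γ₀ (fun n => hγ₀' _ ⟨n, rfl⟩) h
    have hlp : ∀ ξ' < γ, ∃ ζ ∈ C δ, ξ' < ζ ∧ ζ < γ := by
      intro ξ' hξ'
      have : ¬ ∀ n, (z n).1 < ξ' := fun h => hγmin ξ' h hξ'
      push Not at this
      obtain ⟨n, hn⟩ := this
      refine ⟨(z (n + 1)).1, ?_, ?_, hγ (n + 1)⟩
      · rw [hz1]
        exact hnx1 _
      · refine lt_of_le_of_lt hn ?_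
        rw [hz1]
        exact hnx2 _
    refine ⟨γ, ⟨hγδ, ?_, hlp⟩, hγ 0⟩
    rw [isSuccLimit_iff]
    constructor
    · intro hmin
      exact hmin.not_lt (hγ 0)
    · intro ξ' hξ'
      obtain ⟨ζ, _, h1, h2⟩ := hlp ξ' hξ'.lt
      exact hξ'.2 h1 h2
  have hDlt : ∀ γ ∈ D, ∀ γ' ∈ D, γ < γ' → ∀ n, N ≤ n → f γ n < f γ' n := by
    intro γ hγ γ' hγ' hlt n hn
    apply hfr
    refine ⟨hlt, Or.inr ?_⟩
    have h1 := hC3 γ hγ.1 hγ.2
    have h2 := hC3 γ' hγ'.1 hγ'.2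
    rw [h2.2]
    refine ⟨⟨h1.1, hlt⟩, ?_⟩
    exact lt_of_le_of_lt (mk_le_mk_of_subset inter_subset_left) (hN n hn)
  have hDle : ∀ γ ∈ D, ∀ γ' ∈ D, γ ≤ γ' → ∀ n, N ≤ n → f γ n ≤ f γ' n := by
    intro γ hγ γ' hγ' hle n hn
    rcases hle.lt_or_eq with h | h
    · exact (hDlt γ hγ γ' hγ' h n hn).le
    · rw [h]
  -- next elements
  have hnextA : ∀ γ < δ, ∃ a ∈ A, γ < a ∧ a < δ := by
    intro γ hγ
    by_contra hcon
    push Not at hcon
    apply hδ
    refine (hbelow' γ hγ).mono ?_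
    rintro ξ ⟨h1, h2⟩
    refine ⟨h1, ?_⟩
    rw [mem_Iic]
    by_contra h
    rw [not_le] at h
    exact absurd h2 (not_lt.2 (hcon ξ h1 h))
  haveI : Nonempty (succ β).ord.ToType := ⟨δ⟩
  choose! a haA hγa haδ using hnextA
  choose! p hpD hap using hDunb
  have hM : ∀ γ ∈ D, ∃ m, ∀ n, m ≤ n → f γ n < f (a γ) n ∧ f (a γ) n < f (p (a γ)) n := by
    intro γ hγ
    obtain ⟨m₁, h1⟩ := hfev γ (a γ) (hγa γ hγ.1)
    obtain ⟨m₂, h2⟩ := hfev (a γ) (p (a γ)) (hap _ (haδ γ hγ.1))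
    exact ⟨max m₁ m₂, fun n hn => ⟨h1 n (le_trans (le_max_left _ _) hn),
      h2 n (le_trans (le_max_right _ _) hn)⟩⟩
  choose! m hm using hM
  -- pigeonhole for unbounded sets
  have hpig : ∀ (E : Set (succ β).ord.ToType), (∀ ξ < δ, ∃ γ ∈ E, ξ < γ) → E ⊆ Iio δ →
      ∀ (K : Type 1) (v : (succ β).ord.ToType → K) (V : Set K), V.Countable →
        (∀ γ ∈ E, v γ ∈ V) → ∃ k, ∀ ξ < δ, ∃ γ ∈ {γ | γ ∈ E ∧ v γ = k}, ξ < γ := by
    intro E hE hEδ K v V hV hvV
    by_contra hcon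
    push Not at hcon
    choose bd hbd1 hbd2 using hcon
    obtain ⟨γ, hγ, hγ'⟩ := hnocof (bd '' V) (hV.image _) (by
      rintro _ ⟨k, _, rfl⟩
      exact hbd1 k)
    obtain ⟨ζ, hζ, hγζ⟩ := hE γ hγ
    have h1 := hbd2 (v ζ) ζ ⟨hζ, rfl⟩
    have h2 := hγ' _ ⟨v ζ, hvV ζ hζ, rfl⟩
    exact absurd (h2.trans hγζ) (not_lt.2 h1)
  obtain ⟨k, hk⟩ := hpig D (fun ξ hξ => ⟨p ξ, hpD ξ hξ, hap ξ hξ⟩) (fun γ hγ => hγ.1)
    (ULift.{1} ℕ) (fun γ => ⟨m γ⟩) Set.univ (Set.to_countable _) (fun _ _ => mem_univ _)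
  obtain ⟨v, hv⟩ := hpig {γ | γ ∈ D ∧ (⟨m γ⟩ : ULift.{1} ℕ) = k} hk (fun γ hγ => hγ.1.1)
    Ordinal.{0} (fun γ => f (a γ) (max N k.down)) _ hvals (by
      intro γ hγ
      simp only [mem_iUnion, mem_range]
      exact ⟨a γ, haA γ hγ.1.1, _, rfl⟩)
  -- pick two elements
  obtain ⟨ξ₀, hξ₀⟩ : ∃ ξ, ξ < δ := by
    by_contra h
    push Not at h
    exact hδlim.not_isMin (fun x hx => h x)
  obtain ⟨γ, ⟨⟨hγD, hγk⟩, hγv⟩, _⟩ := hv ξ₀ hξ₀
  have hpδ : p (a γ) < δ := (hpD _ (haδ γ hγD.1)).1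
  obtain ⟨γ', ⟨⟨hγ'D, hγ'k⟩, hγ'v⟩, hlt⟩ := hv _ hpδ
  have hmk : m γ ≤ max N k.down := by
    rw [← hγk]
    exact le_max_right _ _
  have hmk' : m γ' ≤ max N k.down := by
    rw [← hγ'k]
    exact le_max_right _ _
  have e1 := (hm γ hγD _ hmk).2
  have e2 := hDle _ (hpD _ (haδ γ hγD.1)) γ' hγ'D hlt.le _ (le_max_left N k.down)
  have e3 := (hm γ' hγ'D _ hmk').1
  have e4 := (e1.trans_le e2).trans e3
  rw [hγv, hγ'v] at e4
  exact lt_irrefl _ e4

end Pool.Agent.Helper61.Cal
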