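import Mathlib

/-!
# Δ-system lemma for uncountable families of finite sets
-/

set_option autoImplicit false

namespace Pool.Agent.Helper61.Cal

open Set

/-- Δ-system lemma, fixed cardinality. -/
theorem delta_card {ι α : Type*} [DecidableEq α] (n : ℕ) :
    ∀ (F : ι → Finset α) (I : Set ι), ¬ I.Countable → (∀ i ∈ I, (F i).card = n) →
      ∃ J, J ⊆ I ∧ ¬ J.Countable ∧ ∃ R : Finset α, (∀ i ∈ J, R ⊆ F i) ∧
        ∀ i ∈ J, ∀ j ∈ J, i ≠ j → F i ∩ F j ⊆ R := by
  induction n with
  | zero =>
    intro F I hI hc
    refine ⟨I, subset_rfl, hI, ∅, fun i _ => Finset.empty_subset _, ?_⟩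
    intro i hi j _ _
    have := Finset.card_eq_zero.1 (hc i hi)
    simp [this]
  | succ n ih =>
    intro F I hI hc
    by_cases hcase : ∃ a : α, ¬ {i | i ∈ I ∧ a ∈ F i}.Countable
    · obtain ⟨a, ha⟩ := hcase
      obtain ⟨J, hJ, hJc, R, hR1, hR2⟩ := ih (fun i => (F i).erase a) _ ha (by
        rintro i ⟨hi, hai⟩
        rw [Finset.card_erase_of_mem hai, hc i hi]
        rfl)
      refine ⟨J, fun i hi => (hJ hi).1, hJc, insert a R, ?_, ?_⟩
      · intro i hi x hx
        rw [Finset.mem_insert] at hx
        rcases hx with rfl | hx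
        · exact (hJ hi).2
        · exact Finset.mem_of_mem_erase (hR1 i hi hx)
      · intro i hi j hj hij x hx
        rw [Finset.mem_inter] at hx
        rw [Finset.mem_insert]
        by_cases hxa : x = a
        · exact Or.inl hxa
        · right
          apply hR2 i hi j hj hij
          rw [Finset.mem_inter]
          exact ⟨Finset.mem_erase.2 ⟨hxa, hx.1⟩, Finset.mem_erase.2 ⟨hxa, hx.2⟩⟩
    · push Not at hcase
      -- maximal pairwise disjoint subfamily
      let P : Set (Set ι) := {J | J ⊆ I ∧ ∀ i ∈ J, ∀ j ∈ J, i ≠ j → Disjoint (F i) (F j)}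
      obtain ⟨J, hJmax⟩ := zorn_subset P (by
        intro c hcP hchain
        refine ⟨⋃₀ c, ⟨?_, ?_⟩, fun s hs => subset_sUnion_of_mem hs⟩
        · exact sUnion_subset fun s hs => (hcP hs).1
        · rintro i ⟨s, hs, his⟩ j ⟨t, ht, hjt⟩ hij
          rcases hchain.total hs ht with hst | hts
          · exact (hcP ht).2 i (hst his) j hjt hij
          · exact (hcP hs).2 i his j (hts hjt) hij)
      have hJP := hJmax.prop
      refine ⟨J, hJP.1, ?_, ∅, fun i _ => Finset.empty_subset _, ?_⟩
      · intro hJcount
        apply hI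
        have hA : (⋃ j ∈ J, (↑(F j) : Set α)).Countable :=
          hJcount.biUnion fun j _ => (F j).countable_toSet
        have hcov : I ⊆ J ∪ ⋃ a ∈ (⋃ j ∈ J, (↑(F j) : Set α)), {i | i ∈ I ∧ a ∈ F i} := by
          intro i hi
          by_cases hiJ : i ∈ J
          · exact Or.inl hiJ
          · right
            by_contra hcon
            have hdis : ∀ j ∈ J, Disjoint (F i) (F j) := by
              intro j hj
              rw [Finset.disjoint_left]
              intro a hai haj
              apply hcon
              simp only [mem_iUnion]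
              exact ⟨a, ⟨j, hj, haj⟩, hi, hai⟩
            have hins : insert i J ∈ P := by
              refine ⟨insert_subset hi hJP.1, ?_⟩
              intro x hx y hy hxy
              rcases hx with rfl | hx
              · rcases hy with rfl | hy
                · exact absurd rfl hxy
                · exact hdis y hy
              · rcases hy with rfl | hy
                · exact (hdis x hx).symm
                · exact hJP.2 x hx y hy hxy
            have := hJmax.le_of_ge hins (subset_insert i J)
            exact hiJ (this (mem_insert i J))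
        exact (hJcount.union (hA.biUnion fun a _ => hcase a)).mono hcov
      · intro i hi j hj hij
        have := hJP.2 i hi j hj hij
        rw [Finset.disjoint_iff_inter_eq_empty] at this
        rw [this]

/-- Pigeonhole: a map from an uncountable set to a countable type has an uncountable fibre. -/
theorem uncountable_fiber {ι β : Type*} [Countable β] (f : ι → β) (I : Set ι)
    (hI : ¬ I.Countable) : ∃ b, ¬ {i | i ∈ I ∧ f i = b}.Countable := by
  by_contra h
  push Not at h
  apply hI
  have : I ⊆ ⋃ b, {i | i ∈ I ∧ f i = b} := by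
    intro i hi
    rw [mem_iUnion]
    exact ⟨f i, hi, rfl⟩
  exact (countable_iUnion h).mono this

/-- Δ-system lemma. -/
theorem delta_system {ι α : Type*} [DecidableEq α] (F : ι → Finset α) (I : Set ι)
    (hI : ¬ I.Countable) :
    ∃ J, J ⊆ I ∧ ¬ J.Countable ∧ ∃ R : Finset α, (∀ i ∈ J, R ⊆ F i) ∧
        ∀ i ∈ J, ∀ j ∈ J, i ≠ j → F i ∩ F j ⊆ R := by
  obtain ⟨n, hn⟩ := uncountable_fiber (fun i => (F i).card) I hI
  obtain ⟨J, hJ, h1, R, h2⟩ := delta_card n F _ hn (fun i hi => hi.2)
  exact ⟨J, fun i hi => (hJ hi).1, h1, R, h2⟩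

/-- An uncountable family of finite partial functions to `Bool` has an uncountable pairwise
compatible subfamily. -/
theorem compatible {ι α : Type*} [DecidableEq α] (T : ι → Finset α) (g : ι → α → Bool) (I : Set ι)
    (hI : ¬ I.Countable) :
    ∃ J, J ⊆ I ∧ ¬ J.Countable ∧
      ∀ i ∈ J, ∀ j ∈ J, ∀ a, a ∈ T i → a ∈ T j → g i a = g j a := by
  obtain ⟨J, hJ, hJc, R, hR1, hR2⟩ := delta_system T I hI
  obtain ⟨b, hb⟩ := uncountable_fiber (fun i => (fun r : R => g i r.1)) J hJc
  refine ⟨_, fun i hi => hJ hi.1, hb, ?_⟩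
  rintro i ⟨hi, hib⟩ j ⟨hj, hjb⟩ a hai haj
  by_cases hij : i = j
  · rw [hij]
  · have haR : a ∈ R := hR2 i hi j hj hij (Finset.mem_inter.2 ⟨hai, haj⟩)
    have h1 := congrFun hib ⟨a, haR⟩
    have h2 := congrFun hjb ⟨a, haR⟩
    simp only at h1 h2
    rw [h1, h2]

end Pool.Agent.Helper61.Cal
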