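import Pool.Agent.Helper61.Cal.Pos

/-!
# Unary Chang's conjecture, and the negative direction from a Chang ideal
-/

set_option autoImplicit false

namespace Pool.Agent.Helper61.Cal

open Set Cardinal Order

/-- From a failure of the unary Chang principle to an injective locally countable family. -/
theorem exists_inj_family {β : Cardinal.{0}} (hβ : ℵ₀ < β)
    (F : (succ β).ord.ToType → ℕ → β.ord.ToType)
    (hF : ∀ A : Set (succ β).ord.ToType, #A = aleph 1 → ¬ (⋃ ξ ∈ A, range (F ξ)).Countable) :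
    ∃ c : (succ β).ord.ToType → ℕ → β.ord.ToType, Function.Injective c ∧
      ∀ C : Set β.ord.ToType, C.Countable → {ξ | ∀ n, c ξ n ∈ C}.Countable := by
  have hLC : ∀ C : Set β.ord.ToType, C.Countable → {ξ | ∀ n, F ξ n ∈ C}.Countable := by
    intro C hC
    by_contra h
    rw [← le_aleph0_iff_set_countable, not_le] at h
    have h1 : aleph 1 ≤ #{ξ | ∀ n, F ξ n ∈ C} := by
      rw [← succ_aleph0]
      exact succ_le_of_lt h
    obtain ⟨A, hA, hAc⟩ := le_mk_iff_exists_subset.1 h1
    apply hF A hAc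
    refine hC.mono ?_
    intro v hv
    simp only [mem_iUnion, mem_range] at hv
    obtain ⟨ξ, hξ, n, rfl⟩ := hv
    exact hA hξ n
  have hfib : ∀ r : range F, (F ⁻¹' {r.1}).Countable := by
    rintro ⟨r, hr⟩
    refine (hLC (range r) (countable_range r)).mono ?_
    intro ξ hξ n
    simp only [mem_preimage, mem_singleton_iff] at hξ
    rw [hξ]
    exact mem_range_self n
  have hcard : #(range F) = succ β := by
    apply le_antisymm
    · calc #(range F) ≤ #((succ β).ord.ToType) := mk_range_le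
        _ = succ β := by simp
    · have h1 : #((succ β).ord.ToType) ≤ #(range F) * ℵ₀ := by
        have : (univ : Set (succ β).ord.ToType) = ⋃ r : range F, F ⁻¹' {r.1} := by
          ext ξ
          simp
        rw [← mk_univ, this]
        refine (mk_iUnion_le _).trans ?_
        refine mul_le_mul' le_rfl ?_
        apply ciSup_le'
        intro r
        rw [le_aleph0_iff_set_countable]
        exact hfib r
      by_contra hlt
      rw [not_le] at hlt
      have h2 : #(range F) ≤ β := le_of_lt_succ hlt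
      have h3 : #((succ β).ord.ToType) ≤ β := by
        refine h1.trans ((mul_le_mul' h2 hβ.le).trans ?_)
        rw [mul_eq_self hβ.le]
      have h4 : #((succ β).ord.ToType) = succ β := by simp
      rw [h4] at h3
      exact absurd (lt_succ β) (not_lt.2 h3)
  have h5 : #((succ β).ord.ToType) = #(range F) := by rw [hcard]; simp
  obtain ⟨e⟩ := Cardinal.eq.1 h5
  refine ⟨fun ξ => (e ξ).1, ?_, ?_⟩
  · intro ξ η h
    exact e.injective (Subtype.ext h)
  · intro C hC
    have h6 : (F '' {ξ | ∀ n, F ξ n ∈ C}).Countable := (hLC C hC).image F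
    have h7 : {ξ | ∀ n, (e ξ).1 n ∈ C} ⊆ (fun ξ => (e ξ).1) ⁻¹' (F '' {ξ | ∀ n, F ξ n ∈ C}) := by
      intro ξ hξ
      obtain ⟨η, hη⟩ := (e ξ).2
      refine ⟨η, ?_, hη⟩
      intro n
      rw [hη]
      exact hξ n
    refine (h6.preimage_of_injOn ?_).mono h7
    intro ξ _ η _ h
    exact e.injective (Subtype.ext h)

/-- The negative direction. -/
theorem negative {β : Cardinal.{0}} (hβ : ℵ₀ < β)
    (𝓕 : Filter (Set (succ β).ord.ToType)) [𝓕.NeBot]
    (hnormal : ∀ A : (succ β).ord.ToType → Set (Set (succ β).ord.ToType),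
      (∀ ξ, A ξ ∈ 𝓕) → {z | ∀ ξ ∈ z, z ∈ A ξ} ∈ 𝓕)
    (hsize : ∀ᶠ z : Set (succ β).ord.ToType in 𝓕, #z = aleph 1 ∧ ∀ ξ, (z ∩ Iio ξ).Countable)
    (hpre : ∀ A : (succ β).ord.ToType → Set (Set (succ β).ord.ToType),
      (∀ ξ, ∃ᶠ z in 𝓕, z ∈ A ξ) → ∃ B : Set (succ β).ord.ToType, #B = succ β ∧
        ∀ G : Finset (succ β).ord.ToType, ↑G ⊆ B → ∃ᶠ z in 𝓕, ∀ ξ ∈ G, z ∈ A ξ)
    (X : Type) [TopologicalSpace X] [CompactSpace X] [T2Space X]
    (hcal : ∀ (ι : Type), #ι = aleph 1 →
          ∀ U : ι → Set X, (∀ i, IsOpen (U i) ∧ (U i).Nonempty) →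
            ∃ B : Set ι, #B = aleph 1 ∧ (⋂ i ∈ B, U i).Nonempty) :
    ∀ (ι : Type), #ι = succ β →
            ∀ U : ι → Set X, (∀ i, IsOpen (U i) ∧ (U i).Nonempty) →
              ∃ B : Set ι, #B = succ β ∧ (⋂ i ∈ B, U i).Nonempty := by
  classical
  intro ι hι U hU
  have hW : #((succ β).ord.ToType) = succ β := by simp
  obtain ⟨e⟩ := Cardinal.eq.1 (hW.trans hι.symm)
  -- shrink
  have hshr : ∀ ξ : (succ β).ord.ToType, ∃ V : Set X, IsOpen V ∧ V.Nonempty ∧
      closure V ⊆ U (e ξ) := by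
    intro ξ
    obtain ⟨x, hx⟩ := (hU (e ξ)).2
    obtain ⟨K, hK, hKc, hKU⟩ := exists_mem_nhds_isClosed_subset ((hU (e ξ)).1.mem_nhds hx)
    refine ⟨interior K, isOpen_interior, ⟨x, mem_interior_iff_mem_nhds.2 hK⟩, ?_⟩
    exact (closure_minimal interior_subset hKc).trans hKU
  choose V hVo hVne hVU using hshr
  -- choice of uncountable centred subfamilies
  have hc : ∀ z : Set (succ β).ord.ToType, #z = aleph 1 → ∃ c : Set (succ β).ord.ToType,
      c ⊆ z ∧ #c = aleph 1 ∧ (⋂ ξ ∈ c, V ξ).Nonempty := by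
    intro z hz
    obtain ⟨B, hB, p, hp⟩ := hcal z hz (fun ξ => V ξ.1) (fun ξ => ⟨hVo _, hVne _⟩)
    refine ⟨Subtype.val '' B, ?_, ?_, p, ?_⟩
    · rintro _ ⟨ξ, _, rfl⟩
      exact ξ.2
    · rw [mk_image_eq Subtype.val_injective, hB]
    · simp only [mem_iInter] at hp ⊢
      rintro _ ⟨ξ, hξ, rfl⟩
      exact hp ξ hξ
  choose! c hcsub hccard hcne using hc
  let A : (succ β).ord.ToType → Set (Set (succ β).ord.ToType) :=
    fun ξ => {z | #z = aleph 1 ∧ ξ ∈ c z}
  let P : Set (succ β).ord.ToType := {ξ | ∃ᶠ z in 𝓕, z ∈ A ξ}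
  have hP : #P = succ β := by
    apply le_antisymm
    · exact (mk_set_le P).trans_eq hW
    by_contra hlt
    rw [not_le] at hlt
    -- P is bounded
    have hbd : ∃ γ : (succ β).ord.ToType, ∀ ξ ∈ P, ξ < γ := by
      by_contra hun
      push Not at hun
      have hcofinal : IsCofinal P := fun γ => by
        obtain ⟨ξ, hξ, hγ⟩ := hun γ
        exact ⟨ξ, hξ, hγ⟩
      have h1 := Order.cof_le hcofinal
      rw [Ordinal.cof_toType, (isRegular_succ hβ.le).cof_ord] at h1
      exact absurd hlt (not_lt.2 h1)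
    obtain ⟨γ, hγ⟩ := hbd
    have hn := hnormal (fun ξ => {z | γ ≤ ξ → z ∉ A ξ}) (by
      intro ξ
      by_cases h : γ ≤ ξ
      · have : ξ ∉ P := fun hξ => absurd (hγ ξ hξ) (not_lt.2 h)
        have h2 : ∀ᶠ z in 𝓕, z ∉ A ξ := Filter.not_frequently.1 this
        filter_upwards [h2] with z hz _ using hz
      · have : {z : Set (succ β).ord.ToType | γ ≤ ξ → z ∉ A ξ} = Set.univ := by
          ext z
          simp [h]
        rw [this]
        exact Filter.univ_mem)
    obtain ⟨z, hz1, hz2, hz3⟩ := ((Filter.eventually_mem_set.2 hn).and hsize).exists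
    have hsub : c z ⊆ z ∩ Iio γ := by
      intro ξ hξ
      refine ⟨hcsub z hz2 hξ, ?_⟩
      rw [mem_Iio]
      by_contra h
      rw [not_lt] at h
      exact hz1 ξ (hcsub z hz2 hξ) h ⟨hz2, hξ⟩
    have h3 : (c z).Countable := (hz3 γ).mono hsub
    rw [← le_aleph0_iff_set_countable, hccard z hz2] at h3
    exact absurd h3 (not_le.2 aleph0_lt_aleph_one)
  obtain ⟨h⟩ := Cardinal.eq.1 (hW.trans hP.symm)
  obtain ⟨B, hB, hBF⟩ := hpre (fun ξ => A (h ξ).1) (fun ξ => (h ξ).2)
  let g : (succ β).ord.ToType → ι := fun ξ => e (h ξ).1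
  have hg : Function.Injective g := fun ξ η hh =>
    h.injective (Subtype.ext (e.injective hh))
  refine ⟨g '' B, ?_, ?_⟩
  · rw [mk_image_eq hg, hB]
  · have hfip : (⋂ ξ : B, closure (V (h ξ.1).1)).Nonempty := by
      apply CompactSpace.iInter_nonempty
      · intro ξ
        exact isClosed_closure
      · intro s
        have hs : (↑(s.image (Subtype.val : B → _)) : Set (succ β).ord.ToType) ⊆ B := by
          intro ξ hξ
          simp only [Finset.coe_image, mem_image] at hξ
          obtain ⟨η, _, rfl⟩ := hξ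
          exact η.2
        obtain ⟨z, hz⟩ := (hBF _ hs).exists
        by_cases hne : s.Nonempty
        · obtain ⟨η₀, hη₀⟩ := hne
          have hz1 : #z = aleph 1 := (hz η₀.1 (Finset.mem_image_of_mem _ hη₀)).1
          obtain ⟨p, hp⟩ := hcne z hz1
          refine ⟨p, ?_⟩
          simp only [mem_iInter] at hp ⊢
          intro ξ hξ
          exact subset_closure (hp _ (hz ξ.1 (Finset.mem_image_of_mem _ hξ)).2)
        · rw [Finset.not_nonempty_iff_eq_empty] at hne
          subst hne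
          have : Nonempty (succ β).ord.ToType := by
            rw [← mk_ne_zero_iff, hW]
            exact (succ_pos β).ne'
          obtain ⟨ξ⟩ := this
          obtain ⟨p, _⟩ := hVne ξ
          exact ⟨p, by simp⟩
    obtain ⟨p, hp⟩ := hfip
    refine ⟨p, ?_⟩
    simp only [mem_iInter] at hp ⊢
    rintro _ ⟨ξ, hξ, rfl⟩
    exact hVU _ (hp ⟨ξ, hξ⟩)

end Pool.Agent.Helper61.Cal
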