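import Pool.Agent.Helper61.Cal.Space

/-!
# The positive direction: a locally countable family gives the space
-/

set_option autoImplicit false

namespace Pool.Agent.Helper61.Cal

open Set Cardinal Order

theorem mk_Iic_lt {β : Cardinal.{0}} (hβ : ℵ₀ ≤ β) (x : β.ord.ToType) : #(Iic x) < β := by
  have h1 : #(Iio x) < β := by simpa using mk_Iio_lt x
  have h2 : Iic x = insert x (Iio x) := by
    ext y
    simp [le_iff_eq_or_lt]
  rw [h2]
  refine lt_of_le_of_lt (mk_insert_le) ?_
  exact add_lt_of_lt hβ h1 (lt_of_lt_of_le one_lt_aleph0 hβ)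

/-- A set of size at most `β`, `cof β = ω`, is a countable union of sets of size less than `β`. -/
theorem exists_decomp {β : Cardinal.{0}} (hβ : ℵ₀ ≤ β) (hcof : β.ord.cof = ℵ₀) {Y : Type}
    (S : Set Y) (hS : #S ≤ β) :
    ∃ A : ℕ → Set Y, S ⊆ ⋃ n, A n ∧ ∀ n, #(A n) < β := by
  have hB : #(β.ord.ToType) = β := by simp
  obtain ⟨f⟩ : Nonempty (S ↪ β.ord.ToType) := by
    rw [← hB] at hS
    exact hS
  obtain ⟨s, hs, hsc⟩ := Order.exists_cof_eq (α := β.ord.ToType)
  rw [Ordinal.cof_toType, hcof] at hsc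
  have hsc' : s.Countable := by
    rw [← le_aleph0_iff_set_countable, hsc]
  have hne : s.Nonempty := by
    rw [Set.nonempty_iff_ne_empty]
    rintro rfl
    simp at hsc
    exact aleph0_ne_zero hsc.symm
  obtain ⟨g, hg⟩ := hsc'.exists_eq_range hne
  refine ⟨fun n => Subtype.val '' (f ⁻¹' (Iic (g n))), ?_, ?_⟩
  · intro y hy
    obtain ⟨z, hz, hyz⟩ := hs (f ⟨y, hy⟩)
    rw [hg] at hz
    obtain ⟨n, rfl⟩ := hz
    rw [mem_iUnion]
    exact ⟨n, ⟨y, hy⟩, hyz, rfl⟩
  · intro n
    refine lt_of_le_of_lt mk_image_le ?_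
    refine lt_of_le_of_lt (mk_preimage_of_injective _ _ f.injective) (mk_Iic_lt hβ _)

theorem pow_lt_of_gch {β : Cardinal.{0}}
    (hG : ∀ κ : Cardinal.{0}, ℵ₀ ≤ κ → (2 : Cardinal.{0}) ^ κ = succ κ)
    (hβ : ℵ₀ < β) (hcof : β.ord.cof = ℵ₀) {κ : Cardinal.{0}} (hκ : κ < β) :
    (2 : Cardinal.{0}) ^ κ < β := by
  rcases lt_or_ge κ ℵ₀ with h | h
  · exact lt_trans (power_lt_aleph0 (by exact_mod_cast nat_lt_aleph0 2) h) hβ
  · rw [hG κ h]
    have h1 : succ κ ≤ β := succ_le_of_lt hκ
    rcases h1.lt_or_eq with h2 | h2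
    · exact h2
    · exfalso
      have := (isRegular_succ h).cof_ord
      rw [h2, hcof] at this
      exact absurd this (ne_of_lt hβ)

theorem aleph0_lt_of {β : Cardinal.{0}} (h1 : aleph 1 < succ β) (hcof : β.ord.cof = ℵ₀) :
    ℵ₀ < β := by
  have h2 : aleph 1 ≤ β := le_of_lt_succ h1
  exact lt_of_lt_of_le aleph0_lt_aleph_one h2

/-- Existence of the edges. -/
theorem exists_edges {β : Cardinal.{0}}
    (hG : ∀ κ : Cardinal.{0}, ℵ₀ ≤ κ → (2 : Cardinal.{0}) ^ κ = succ κ)
    (hβ : ℵ₀ < β) (hcof : β.ord.cof = ℵ₀)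
    (c : (succ β).ord.ToType → ℕ → β.ord.ToType)
    (x : (succ β).ord.ToType → (List β.ord.ToType × β.ord.ToType → Bool)) :
    ∃ a b : (succ β).ord.ToType → ℕ → β.ord.ToType, (∀ ξ n, a ξ n ≠ b ξ n) ∧
      ∀ η ξ, η < ξ → ∃ n, x η (pre c ξ n, a ξ n) = x η (pre c ξ n, b ξ n) := by
  have hI : ∀ ξ : (succ β).ord.ToType, #(Iio ξ) ≤ β := by
    intro ξ
    have : #(Iio ξ) < succ β := by simpa using mk_Iio_lt ξ
    exact le_of_lt_succ this
  choose A hA1 hA2 using fun ξ => exists_decomp hβ.le hcof (Iio ξ) (hI ξ)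
  have hpair : ∀ ξ n, ∃ q : β.ord.ToType × β.ord.ToType, q.1 ≠ q.2 ∧
      ∀ η ∈ A ξ n, x η (pre c ξ n, q.1) = x η (pre c ξ n, q.2) := by
    intro ξ n
    let φ : β.ord.ToType → (A ξ n → Bool) := fun b η => x η.1 (pre c ξ n, b)
    have hni : ¬ Function.Injective φ := by
      intro hinj
      have h1 := mk_le_of_injective hinj
      have h2 : #(A ξ n → Bool) = (2 : Cardinal.{0}) ^ #(A ξ n) := by simp
      rw [h2] at h1
      have h3 := pow_lt_of_gch hG hβ hcof (hA2 ξ n)
      have h4 : #(β.ord.ToType) = β := by simp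
      rw [h4] at h1
      exact absurd h1 (not_le.2 h3)
    rw [Function.Injective] at hni
    push Not at hni
    obtain ⟨p, q, h1, h2⟩ := hni
    refine ⟨(p, q), h2, fun η hη => ?_⟩
    exact congrFun h1 ⟨η, hη⟩
  choose q hq1 hq2 using hpair
  refine ⟨fun ξ n => (q ξ n).1, fun ξ n => (q ξ n).2, hq1, ?_⟩
  intro η ξ h
  have := hA1 ξ h
  rw [mem_iUnion] at this
  obtain ⟨n, hn⟩ := this
  exact ⟨n, hq2 ξ n η hn⟩

theorem exists_enum {β : Cardinal.{0}}
    (hG : ∀ κ : Cardinal.{0}, ℵ₀ ≤ κ → (2 : Cardinal.{0}) ^ κ = succ κ)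
    (hβ : ℵ₀ < β) :
    ∃ x : (succ β).ord.ToType → (List β.ord.ToType × β.ord.ToType → Bool),
      Function.Surjective x := by
  have h4 : #(β.ord.ToType) = β := by simp
  haveI : Infinite β.ord.ToType := by
    rw [infinite_iff, h4]
    exact hβ.le
  have h1 : #(List β.ord.ToType × β.ord.ToType → Bool) = succ β := by
    have : #(List β.ord.ToType × β.ord.ToType) = β := by
      rw [mk_prod, lift_id, lift_id, mk_list_eq_mk, h4, mul_eq_self hβ.le]
    simp only [← power_def, mk_bool] at *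
    rw [this, hG β hβ.le]
  have h2 : #((succ β).ord.ToType) = #(List β.ord.ToType × β.ord.ToType → Bool) := by
    rw [h1]
    simp
  obtain ⟨e⟩ := Cardinal.eq.1 h2
  exact ⟨e, e.surjective⟩

/-- The core of the positive direction. -/
theorem positive {β : Cardinal.{0}}
    (hG : ∀ κ : Cardinal.{0}, ℵ₀ ≤ κ → (2 : Cardinal.{0}) ^ κ = succ κ)
    (hβ : ℵ₀ < β) (hcof : β.ord.cof = ℵ₀)
    (c : (succ β).ord.ToType → ℕ → β.ord.ToType) (hinj : Function.Injective c)
    (hLC : ∀ C : Set β.ord.ToType, C.Countable → {ξ | ∀ n, c ξ n ∈ C}.Countable) :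
    ∃ (X : Type) (_ : TopologicalSpace X), CompactSpace X ∧ T2Space X ∧
      (∀ S : Set (Set X), (∀ U ∈ S, IsOpen U ∧ U.Nonempty) →
          S.PairwiseDisjoint id → S.Countable) ∧
      (∀ (ι : Type), #ι = aleph 1 →
          ∀ U : ι → Set X, (∀ i, IsOpen (U i) ∧ (U i).Nonempty) →
            ∃ B : Set ι, #B = aleph 1 ∧ (⋂ i ∈ B, U i).Nonempty) ∧
      ¬ (∀ (ι : Type), #ι = succ β →
            ∀ U : ι → Set X, (∀ i, IsOpen (U i) ∧ (U i).Nonempty) →
              ∃ B : Set ι, #B = succ β ∧ (⋂ i ∈ B, U i).Nonempty) := by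
  classical
  obtain ⟨x, hx⟩ := exists_enum hG hβ
  obtain ⟨a, b, hab, hkill⟩ := exists_edges hG hβ hcof c x
  have hcal : ∀ {ι : Type} (I : Set ι), ¬ I.Countable → ∀ U : ι → Set (XS c a b),
    (∀ i, IsOpen (U i) ∧ (U i).Nonempty) → ∃ J, J ⊆ I ∧ ¬ J.Countable ∧
      (⋂ i ∈ J, U i).Nonempty := fun I hI U hU => caliber_XS c a b hinj hLC hab I hI U hU
  refine ⟨XS c a b, inferInstance, ?_, inferInstance, ?_, ?_, ?_⟩
  · exact isCompact_iff_compactSpace.1 (isClosed_XS c a b).isCompact
  · intro S hS hdis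
    by_contra hcount
    obtain ⟨J, hJ, hJc, p, hp⟩ := hcal (ι := S) (univ : Set S) (by
      intro h
      apply hcount
      rw [countable_univ_iff] at h
      exact Set.countable_coe_iff.1 h) (fun u => u.1) (fun u => hS u.1 u.2)
    apply hJc
    apply Set.Subsingleton.countable
    intro u hu v hv
    by_contra huv
    have h1 : p ∈ u.1 := by
      simp only [mem_iInter] at hp
      exact hp u hu
    have h2 : p ∈ v.1 := by
      simp only [mem_iInter] at hp
      exact hp v hv
    have h3 := hdis u.2 v.2 (fun h => huv (Subtype.ext h))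
    exact Set.disjoint_left.1 h3 h1 h2
  · intro ι hι U hU
    have hunc : ¬ (univ : Set ι).Countable := by
      intro h
      rw [← le_aleph0_iff_set_countable, mk_univ, hι] at h
      exact absurd h (not_le.2 aleph0_lt_aleph_one)
    obtain ⟨J, hJ, hJc, hne⟩ := hcal univ hunc U hU
    refine ⟨J, ?_, hne⟩
    apply le_antisymm
    · rw [← hι]
      exact mk_set_le J
    · rw [← le_aleph0_iff_set_countable, not_le] at hJc
      rw [← succ_aleph0]
      exact succ_le_of_lt hJc
  · intro hcontra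
    obtain ⟨J, hJ, p, hp⟩ := hcontra (succ β).ord.ToType (by simp)
      (fun ξ => {s : XS c a b | s.1.1 ξ = true}) (by
        intro ξ
        constructor
        · have hcont : Continuous (fun s : XS c a b => s.1.1 ξ) := by fun_prop
          exact (isOpen_discrete {true}).preimage hcont
        · refine ⟨⟨(fun η => decide (η = ξ), fun v => decide (∃ n, v = (pre c ξ n, a ξ n))), ?_⟩,
            ?_⟩
          · intro η hη n
            simp only [decide_eq_true_eq] at hη
            subst hη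
            have h1 : decide (∃ n', ((pre c η n, a η n) : List β.ord.ToType × β.ord.ToType) =
                (pre c η n', a η n')) = true := by
              rw [decide_eq_true_eq]
              exact ⟨n, rfl⟩
            have h2 : decide (∃ n', ((pre c η n, b η n) : List β.ord.ToType × β.ord.ToType) =
                (pre c η n', a η n')) = false := by
              rw [decide_eq_false_iff_not]
              rintro ⟨n', heq⟩
              rw [Prod.mk.injEq] at heq
              obtain ⟨he1, he2⟩ := heq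
              have hlen : n = n' := by
                have := congrArg List.length he1
                simpa using this
              subst hlen
              exact hab η n he2.symm
            simp only [h1, h2]
            simp
          · simp)
    obtain ⟨η, hη⟩ := hx p.1.2
    -- find ξ ∈ J above η
    have hex : ∃ ξ ∈ J, η < ξ := by
      by_contra h
      push Not at h
      have hsub : J ⊆ Iic η := fun ξ hξ => h ξ hξ
      have h1 : #J ≤ #(Iic η) := mk_le_mk_of_subset hsub
      have h2 := mk_Iic_lt (β := succ β) (hβ.le.trans (le_succ β)) η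
      rw [hJ] at h1
      exact absurd h1 (not_le.2 h2)
    obtain ⟨ξ, hξ, hlt⟩ := hex
    obtain ⟨n, hn⟩ := hkill η ξ hlt
    have hp1 : p.1.1 ξ = true := by
      simp only [mem_iInter] at hp
      exact hp ξ hξ
    have := p.2 ξ hp1 n
    rw [← hη] at this
    exact this hn

end Pool.Agent.Helper61.Cal
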