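import Pool.Agent.Helper61.Cal.Delta

/-!
# The compact space built from a tree-like family of edges
-/

set_option autoImplicit false

namespace Pool.Agent.Helper61.Cal

open Set

variable {B W : Type}

/-- prefix of length `n` -/
def pre (c : W → ℕ → B) (ξ : W) (n : ℕ) : List B := (List.range n).map (c ξ)

@[simp] theorem pre_length (c : W → ℕ → B) (ξ : W) (n : ℕ) : (pre c ξ n).length = n := by
  simp [pre]

theorem pre_eq_iff {c : W → ℕ → B} {ξ η : W} {n : ℕ} :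
    pre c ξ n = pre c η n ↔ ∀ i < n, c ξ i = c η i := by
  simp [pre, List.map_inj_left]

theorem pre_eq_mono {c : W → ℕ → B} {ξ η : W} {n m : ℕ} (hnm : n ≤ m)
    (h : pre c ξ m = pre c η m) : pre c ξ n = pre c η n := by
  rw [pre_eq_iff] at h ⊢
  exact fun i hi => h i (lt_of_lt_of_le hi hnm)

/-- The set of good pairs (set of indices, proper colouring). -/
def XS (c a b : W → ℕ → B) : Set ((W → Bool) × (List B × B → Bool)) :=
  {s | ∀ ξ, s.1 ξ = true → ∀ n, s.2 (pre c ξ n, a ξ n) ≠ s.2 (pre c ξ n, b ξ n)}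

theorem isClosed_XS (c a b : W → ℕ → B) : IsClosed (XS c a b) := by
  have : XS c a b = ⋂ ξ, ⋂ n, {s | s.1 ξ = true →
      s.2 (pre c ξ n, a ξ n) ≠ s.2 (pre c ξ n, b ξ n)} := by
    ext s
    simp only [XS, mem_setOf_eq, mem_iInter]
    constructor
    · intro h ξ n h1
      exact h ξ h1 n
    · intro h ξ h1 n
      exact h ξ n h1
  rw [this]
  refine isClosed_iInter fun ξ => isClosed_iInter fun n => ?_
  have hcont : Continuous (fun s : (W → Bool) × (List B × B → Bool) =>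
      (s.1 ξ, s.2 (pre c ξ n, a ξ n), s.2 (pre c ξ n, b ξ n))) := by
    fun_prop
  have : {s : (W → Bool) × (List B × B → Bool) | s.1 ξ = true →
      s.2 (pre c ξ n, a ξ n) ≠ s.2 (pre c ξ n, b ξ n)} =
      (fun s : (W → Bool) × (List B × B → Bool) =>
      (s.1 ξ, s.2 (pre c ξ n, a ξ n), s.2 (pre c ξ n, b ξ n))) ⁻¹'
        {t : Bool × Bool × Bool | t.1 = true → t.2.1 ≠ t.2.2} := rfl
  rw [this]
  exact (isClosed_discrete _).preimage hcont

/-- Uncountable subfamilies can be separated at some level. -/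
theorem separated {ι : Type} (c : W → ℕ → B) (hinj : Function.Injective c)
    (hLC : ∀ C : Set B, C.Countable → {ξ | ∀ n, c ξ n ∈ C}.Countable)
    (F : ι → Finset W) (I : Set ι) (hI : ¬ I.Countable) (N₀ : ℕ) :
    ∃ J, J ⊆ I ∧ ¬ J.Countable ∧ ∃ N, N₀ ≤ N ∧
      ∀ i ∈ J, ∀ j ∈ J, ∀ ξ ∈ F i, ∀ η ∈ F j, pre c ξ N = pre c η N → ξ = η := by
  classical
  obtain ⟨J₁, hJ₁, hJ₁c, R, hR1, hR2⟩ := delta_system F I hI
  by_contra hcon
  push Not at hcon
  -- hcon : ∀ J ⊆ I, ¬ J.Countable → ∀ N ≥ N₀, ∃ ...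
  let P : ℕ → Set (Set ι) := fun N => {J | J ⊆ J₁ ∧
    ∀ i ∈ J, ∀ j ∈ J, ∀ ξ ∈ F i, ∀ η ∈ F j, pre c ξ N = pre c η N → ξ = η}
  have hmax : ∀ N, ∃ J, Maximal (· ∈ P N) J := by
    intro N
    refine zorn_subset (P N) ?_
    intro ch hcP hchain
    refine ⟨⋃₀ ch, ⟨?_, ?_⟩, fun s hs => subset_sUnion_of_mem hs⟩
    · exact sUnion_subset fun s hs => (hcP hs).1
    · rintro i ⟨s, hs, his⟩ j ⟨t, ht, hjt⟩
      rcases hchain.total hs ht with hst | hts
      · exact (hcP ht).2 i (hst his) j hjt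
      · exact (hcP hs).2 i his j (hts hjt)
  choose M hM using hmax
  have hMc : ∀ N, N₀ ≤ N → (M N).Countable := by
    intro N hN
    by_contra hnc
    obtain ⟨i, hi, j, hj, ξ, hξ, η, hη, h1, h2⟩ :=
      hcon (M N) ((hM N).prop.1.trans hJ₁) hnc N hN
    exact h2 ((hM N).prop.2 i hi j hj ξ hξ η hη h1)
  -- the countable set of all involved coordinates
  let S : Set W := ⋃ N ∈ {N | N₀ ≤ N}, ⋃ i ∈ M N, (↑(F i) : Set W)
  have hS : S.Countable := by
    refine (Set.to_countable _).biUnion fun N hN => (hMc N hN).biUnion fun i _ => ?_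
    exact (F i).countable_toSet
  let C : Set B := ⋃ ξ ∈ S ∪ ↑R, range (c ξ)
  have hC : C.Countable :=
    (hS.union R.countable_toSet).biUnion fun ξ _ => countable_range _
  have hZ := hLC C hC
  set Z := {ξ | ∀ n, c ξ n ∈ C} with hZdef
  -- indices meeting Z outside R
  have hbad : {i | i ∈ J₁ ∧ ∃ ξ ∈ F i, ξ ∉ R ∧ ξ ∈ Z}.Countable := by
    have : {i | i ∈ J₁ ∧ ∃ ξ ∈ F i, ξ ∉ R ∧ ξ ∈ Z} ⊆
        ⋃ ξ ∈ Z, {i | i ∈ J₁ ∧ ξ ∈ F i ∧ ξ ∉ R} := by
      rintro i ⟨hi, ξ, hξ, hR, hz⟩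
      simp only [mem_iUnion]
      exact ⟨ξ, hz, hi, hξ, hR⟩
    refine (hZ.biUnion fun ξ _ => ?_).mono this
    apply Set.Subsingleton.countable
    rintro i ⟨hi, h1, h2⟩ j ⟨hj, h3, _⟩
    by_contra hij
    exact h2 (hR2 i hi j hj hij (Finset.mem_inter.2 ⟨h1, h3⟩))
  have hbad2 : (⋃ N ∈ {N | N₀ ≤ N}, M N).Countable :=
    (Set.to_countable _).biUnion fun N hN => hMc N hN
  have hex : ∃ i ∈ J₁, i ∉ {i | i ∈ J₁ ∧ ∃ ξ ∈ F i, ξ ∉ R ∧ ξ ∈ Z} ∧
      i ∉ (⋃ N ∈ {N | N₀ ≤ N}, M N) := by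
    by_contra h
    push Not at h
    apply hJ₁c
    refine (hbad.union hbad2).mono fun i hi => ?_
    by_cases h1 : i ∈ {i | i ∈ J₁ ∧ ∃ ξ ∈ F i, ξ ∉ R ∧ ξ ∈ Z}
    · exact Or.inl h1
    · exact Or.inr (h i hi h1)
  obtain ⟨i, hiJ, hi1, hi2⟩ := hex
  -- choose N
  have hN1 : ∃ N₁, ∀ ξ ∈ F i, ∀ η ∈ F i, ∀ N, N₁ ≤ N → pre c ξ N = pre c η N → ξ = η := by
    have : ∀ q : W × W, ∃ N₁, ∀ N, N₁ ≤ N → pre c q.1 N = pre c q.2 N → q.1 = q.2 := by
      rintro ⟨ξ, η⟩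
      by_cases h : ξ = η
      · exact ⟨0, fun _ _ _ => h⟩
      · have : c ξ ≠ c η := fun h' => h (hinj h')
        obtain ⟨n, hn⟩ := Function.ne_iff.1 this
        refine ⟨n + 1, fun N hN h' => ?_⟩
        rw [pre_eq_iff] at h'
        exact absurd (h' n (by omega)) hn
    choose g hg using this
    refine ⟨(F i ×ˢ F i).sup g, fun ξ hξ η hη N hN h => ?_⟩
    refine hg (ξ, η) N (le_trans ?_ hN) h
    exact Finset.le_sup (Finset.mem_product.2 ⟨hξ, hη⟩)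
  obtain ⟨N₁, hN₁⟩ := hN1
  have hN2 : ∃ N₂, ∀ ξ ∈ F i, ξ ∉ R → ∀ N, N₂ ≤ N → ∀ η ∈ S, pre c ξ N ≠ pre c η N := by
    have : ∀ ξ : W, ∃ N₂, ξ ∈ F i → ξ ∉ R → ∀ N, N₂ ≤ N → ∀ η ∈ S, pre c ξ N ≠ pre c η N := by
      intro ξ
      by_cases h : ξ ∈ F i ∧ ξ ∉ R
      · have hz : ξ ∉ Z := fun hz => hi1 ⟨hiJ, ξ, h.1, h.2, hz⟩
        simp only [hZdef, mem_setOf_eq, not_forall] at hz
        obtain ⟨n, hn⟩ := hz
        refine ⟨n + 1, fun _ _ N hN η hη h' => ?_⟩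
        rw [pre_eq_iff] at h'
        apply hn
        rw [h' n (by omega)]
        simp only [C, mem_iUnion]
        exact ⟨η, Or.inl hη, mem_range_self n⟩
      · exact ⟨0, fun h1 h2 => absurd ⟨h1, h2⟩ h⟩
    choose g hg using this
    refine ⟨(F i).sup g, fun ξ hξ hR N hN => hg ξ hξ hR N (le_trans ?_ hN)⟩
    exact Finset.le_sup hξ
  obtain ⟨N₂, hN₂⟩ := hN2
  let N := max N₀ (max N₁ N₂)
  have hN0 : N₀ ≤ N := le_max_left _ _
  have hN1' : N₁ ≤ N := le_trans (le_max_left _ _) (le_max_right _ _)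
  have hN2' : N₂ ≤ N := le_trans (le_max_right _ _) (le_max_right _ _)
  have hiM : i ∉ M N := by
    intro h
    apply hi2
    simp only [mem_iUnion]
    exact ⟨N, hN0, h⟩
  have hSM : ∀ j ∈ M N, ∀ η ∈ F j, η ∈ S := by
    intro j hj η hη
    simp only [S, mem_iUnion]
    exact ⟨N, hN0, j, hj, hη⟩
  -- key: an element of `F i` versus an element of `F j`, `j ∈ M N`
  have key : ∀ j ∈ M N, ∀ ξ ∈ F i, ∀ η ∈ F j, pre c ξ N = pre c η N → ξ = η := by
    intro j hj ξ hξ η hη h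
    by_cases hR : ξ ∈ R
    · have hξj : ξ ∈ F j := hR1 j ((hM N).prop.1 hj) hR
      exact (hM N).prop.2 j hj j hj ξ hξj η hη h
    · exact absurd h (hN₂ ξ hξ hR N hN2' η (hSM j hj η hη))
  have hins : insert i (M N) ∈ P N := by
    refine ⟨insert_subset hiJ (hM N).prop.1, ?_⟩
    rintro x hx y hy ξ hξ η hη h
    rcases hx with rfl | hx
    · rcases hy with rfl | hy
      · exact hN₁ ξ hξ η hη N hN1' h
      · exact key y hy ξ hξ η hη h
    · rcases hy with rfl | hy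
      · exact (key x hx η hη ξ hξ h.symm).symm
      · exact (hM N).prop.2 x hx y hy ξ hξ η hη h
  have := (hM N).le_of_ge hins (subset_insert i (M N))
  exact hiM (this (mem_insert i (M N)))

/-- Basic neighbourhoods. -/
theorem exists_basic (c a b : W → ℕ → B) (U : Set (XS c a b)) (hU : IsOpen U) (s : XS c a b)
    (hs : s ∈ U) : ∃ (t : Finset W) (d : Finset (List B × B)), ∀ u : XS c a b,
      (∀ ξ ∈ t, u.1.1 ξ = s.1.1 ξ) → (∀ v ∈ d, u.1.2 v = s.1.2 v) → u ∈ U := by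
  rw [isOpen_induced_iff] at hU
  obtain ⟨V, hV, rfl⟩ := hU
  rw [isOpen_prod_iff] at hV
  obtain ⟨V₁, V₂, hV₁, hV₂, h1, h2, hsub⟩ := hV s.1.1 s.1.2 hs
  rw [isOpen_pi_iff] at hV₁ hV₂
  obtain ⟨t, u₁, ht, htV⟩ := hV₁ s.1.1 h1
  obtain ⟨d, u₂, hd, hdV⟩ := hV₂ s.1.2 h2
  refine ⟨t, d, fun u hu1 hu2 => ?_⟩
  apply hsub
  refine ⟨htV ?_, hdV ?_⟩
  · intro ξ hξ
    rw [hu1 ξ hξ]
    exact (ht ξ hξ).2
  · intro v hv
    rw [hu2 v hv]
    exact (hd v hv).2

/-- The space has the strong uncountable-caliber property. -/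
theorem caliber_XS (c a b : W → ℕ → B) (hinj : Function.Injective c)
    (hLC : ∀ C : Set B, C.Countable → {ξ | ∀ n, c ξ n ∈ C}.Countable)
    (hab : ∀ ξ n, a ξ n ≠ b ξ n)
    {ι : Type} (I : Set ι) (hI : ¬ I.Countable) (U : ι → Set (XS c a b))
    (hU : ∀ i, IsOpen (U i) ∧ (U i).Nonempty) :
    ∃ J, J ⊆ I ∧ ¬ J.Countable ∧ (⋂ i ∈ J, U i).Nonempty := by
  classical
  choose s hs using fun i => (hU i).2
  choose t d htd using fun i => exists_basic c a b (U i) (hU i).1 (s i) (hs i)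
  -- index sets
  let F : ι → Finset W := fun i => (t i).filter (fun ξ => (s i).1.1 ξ = true)
  -- bound on levels of d
  let L : ι → ℕ := fun i => (d i).sup (fun v => v.1.length + 1)
  obtain ⟨N₀, hJ₁⟩ := uncountable_fiber L I hI
  obtain ⟨J₂, hJ₂, hJ₂c, N, hN, hsep⟩ := separated c hinj hLC F _ hJ₁ N₀
  -- first compatible: on W
  obtain ⟨J₃, hJ₃, hJ₃c, hcomp1⟩ := compatible t (fun i => (s i).1.1) J₂ hJ₂c
  let T : ι → Finset (List B × B) := fun i => d i ∪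
    ((F i) ×ˢ (Finset.range N)).image (fun q => (pre c q.1 q.2, a q.1 q.2)) ∪
    ((F i) ×ˢ (Finset.range N)).image (fun q => (pre c q.1 q.2, b q.1 q.2))
  obtain ⟨J, hJ, hJc, hcomp2⟩ := compatible T (fun i => (s i).1.2) J₃ hJ₃c
  have hJI : J ⊆ I := fun i hi => (hJ₂ (hJ₃ (hJ hi))).1
  have hJsep : ∀ i ∈ J, ∀ j ∈ J, ∀ ξ ∈ F i, ∀ η ∈ F j, pre c ξ N = pre c η N → ξ = η :=
    fun i hi j hj => hsep i (hJ₃ (hJ hi)) j (hJ₃ (hJ hj))
  have hJcomp1 : ∀ i ∈ J, ∀ j ∈ J, ∀ ξ, ξ ∈ t i → ξ ∈ t j → (s i).1.1 ξ = (s j).1.1 ξ :=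
    fun i hi j hj => hcomp1 i (hJ hi) j (hJ hj)
  have hdlen : ∀ i ∈ J, ∀ v ∈ d i, v.1.length < N := by
    intro i hi v hv
    have h1 : L i = N₀ := (hJ₂ (hJ₃ (hJ hi))).2
    have h2 : v.1.length + 1 ≤ L i := Finset.le_sup (f := fun v : List B × B => v.1.length + 1) hv
    omega
  have hTlen : ∀ i ∈ J, ∀ v ∈ T i, v.1.length < N := by
    intro i hi v hv
    simp only [T, Finset.mem_union, Finset.mem_image, Finset.mem_product, Finset.mem_range] at hv
    rcases hv with (hv | ⟨q, hq, rfl⟩) | ⟨q, hq, rfl⟩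
    · exact hdlen i hi v hv
    · simpa using hq.2
    · simpa using hq.2
  -- the final point
  let S : W → Bool := fun ξ => decide (∃ i ∈ J, ξ ∈ F i)
  let y : List B × B → Bool := fun v =>
    if h : ∃ i ∈ J, v ∈ T i then (s h.choose).1.2 v
    else decide (∃ ξ n, N ≤ n ∧ (∃ i ∈ J, ξ ∈ F i) ∧ v = (pre c ξ n, a ξ n))
  have hyT : ∀ i ∈ J, ∀ v ∈ T i, y v = (s i).1.2 v := by
    intro i hi v hv
    have h : ∃ i ∈ J, v ∈ T i := ⟨i, hi, hv⟩
    simp only [y, dif_pos h]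
    exact hcomp2 _ h.choose_spec.1 i hi v h.choose_spec.2 hv
  have hylow : ∀ v : List B × B, N ≤ v.1.length → y v = decide (∃ ξ n, N ≤ n ∧
      (∃ i ∈ J, ξ ∈ F i) ∧ v = (pre c ξ n, a ξ n)) := by
    intro v hv
    have h : ¬ ∃ i ∈ J, v ∈ T i := by
      rintro ⟨i, hi, hvi⟩
      have := hTlen i hi v hvi
      omega
    simp only [y, dif_neg h]
  have hX : ((S, y) : (W → Bool) × (List B × B → Bool)) ∈ XS c a b := by
    intro ξ hξ n
    simp only [S, decide_eq_true_eq] at hξ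
    obtain ⟨i, hi, hξi⟩ := hξ
    simp only
    by_cases hn : n < N
    · have h1 : (pre c ξ n, a ξ n) ∈ T i := by
        simp only [T, Finset.mem_union, Finset.mem_image, Finset.mem_product, Finset.mem_range]
        exact Or.inl (Or.inr ⟨(ξ, n), ⟨hξi, hn⟩, rfl⟩)
      have h2 : (pre c ξ n, b ξ n) ∈ T i := by
        simp only [T, Finset.mem_union, Finset.mem_image, Finset.mem_product, Finset.mem_range]
        exact Or.inr ⟨(ξ, n), ⟨hξi, hn⟩, rfl⟩
      rw [hyT i hi _ h1, hyT i hi _ h2]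
      exact (s i).2 ξ (Finset.mem_filter.1 hξi).2 n
    · push Not at hn
      rw [hylow _ (by simpa using hn), hylow _ (by simpa using hn)]
      have h1 : decide (∃ ξ' n', N ≤ n' ∧ (∃ i ∈ J, ξ' ∈ F i) ∧
          ((pre c ξ n, a ξ n) : List B × B) = (pre c ξ' n', a ξ' n')) = true := by
        rw [decide_eq_true_eq]
        exact ⟨ξ, n, hn, ⟨i, hi, hξi⟩, rfl⟩
      have h2 : decide (∃ ξ' n', N ≤ n' ∧ (∃ i ∈ J, ξ' ∈ F i) ∧
          ((pre c ξ n, b ξ n) : List B × B) = (pre c ξ' n', a ξ' n')) = false := by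
        rw [decide_eq_false_iff_not]
        rintro ⟨ξ', n', hn', ⟨j, hj, hξ'⟩, heq⟩
        rw [Prod.mk.injEq] at heq
        obtain ⟨he1, he2⟩ := heq
        have hlen : n = n' := by
          have := congrArg List.length he1
          simpa using this
        subst hlen
        have hpre := pre_eq_mono hn he1
        have := hJsep i hi j hj ξ hξi ξ' hξ' hpre
        subst this
        exact hab ξ n he2.symm
      rw [h1, h2]
      simp
  refine ⟨J, hJI, hJc, ⟨⟨(S, y), hX⟩, ?_⟩⟩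
  simp only [mem_iInter]
  intro i hi
  apply htd i
  · intro ξ hξ
    simp only [S]
    by_cases hsi : (s i).1.1 ξ = true
    · rw [hsi, decide_eq_true_eq]
      exact ⟨i, hi, Finset.mem_filter.2 ⟨hξ, hsi⟩⟩
    · have hsf : (s i).1.1 ξ = false := by simpa using hsi
      rw [hsf, decide_eq_false_iff_not]
      rintro ⟨j, hj, hξj⟩
      rw [Finset.mem_filter] at hξj
      rw [hJcomp1 i hi j hj ξ hξ hξj.1, hξj.2] at hsf
      exact absurd hsf (by simp)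
  · intro v hv
    exact hyT i hi v (by
      simp only [T, Finset.mem_union]
      exact Or.inl (Or.inl hv))

end Pool.Agent.Helper61.Cal
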